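import Pool.Agent.TH198.AT.Stmts

/-!
# Comparison lemma for solutions of the Parisi equation

Common part of the phases 1 and 2: a family `H(t,x) + (y - x) A(t,x)` of affine functions of `y`
stays below the Parisi solution `f(t,y)` if it does so at the final time and `H`, `A` solve the
corresponding linear equations.
-/

set_option autoImplicit false

open MeasureTheory ProbabilityTheory Set Filter Topology

namespace Pool.TH879.AT

open Pool.TH198.AT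

section Parisi

variable {β : ℝ} {ζ : ℝ → ℝ} {f fx fxx : ℝ → ℝ → ℝ} {C : ℝ}

lemma zeta_int (hζ : IsCdf ζ) {a b : ℝ} (ha : a ∈ Icc (0 : ℝ) 1) (hb : b ∈ Icc (0 : ℝ) 1) :
    IntervalIntegrable ζ volume a b :=
  (hζ.1.mono (uIcc_subset_Icc ha hb)).intervalIntegrable

/-- the integrand of the Parisi equation -/
noncomputable def gg (β : ℝ) (ζ : ℝ → ℝ) (fx fxx : ℝ → ℝ → ℝ) (x r : ℝ) : ℝ :=
  β ^ 2 * (fxx r x + ζ r * fx r x ^ 2)

lemma sec_cont {F : ℝ → ℝ → ℝ} {s : Set ℝ}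
    (h : ContinuousOn (fun p : ℝ × ℝ => F p.1 p.2) (s ×ˢ univ)) (x : ℝ) :
    ContinuousOn (fun r => F r x) s := by
  have h2 : ContinuousOn (fun r : ℝ => ((r, x) : ℝ × ℝ)) s := by fun_prop
  exact h.comp h2 (fun r hr => ⟨hr, mem_univ _⟩)

lemma gg_int (hζ : IsCdf ζ)
    (hcx : ContinuousOn (fun p : ℝ × ℝ => fx p.1 p.2) (Icc 0 1 ×ˢ univ))
    (hcxx : ContinuousOn (fun p : ℝ × ℝ => fxx p.1 p.2) (Icc 0 1 ×ˢ univ))
    {a b : ℝ} (ha : a ∈ Icc (0 : ℝ) 1) (hb : b ∈ Icc (0 : ℝ) 1) (x : ℝ) :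
    IntervalIntegrable (gg β ζ fx fxx x) volume a b := by
  have hsub := uIcc_subset_Icc ha hb
  have h1 : IntervalIntegrable (fun r => fxx r x) volume a b :=
    ((sec_cont hcxx x).mono hsub).intervalIntegrable
  have h2 : IntervalIntegrable (fun r => ζ r * fx r x ^ 2) volume a b :=
    (zeta_int hζ ha hb).mul_continuousOn (((sec_cont hcx x).mono hsub).pow 2)
  exact (h1.add h2).const_mul (β ^ 2)

lemma gg_bd (hζ : IsCdf ζ) (hC : ∀ t ∈ Icc (0 : ℝ) 1, ∀ x, |fx t x| ≤ C ∧ |fxx t x| ≤ C)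
    {r : ℝ} (hr : r ∈ Icc (0 : ℝ) 1) (x : ℝ) : |gg β ζ fx fxx x r| ≤ β ^ 2 * (C + C ^ 2) := by
  unfold gg
  obtain ⟨h1, h2⟩ := hC r hr x
  obtain ⟨h3, h4⟩ := hζ.2.1 r hr
  rw [abs_mul, abs_of_nonneg (sq_nonneg β)]
  have h5 : fx r x ^ 2 ≤ C ^ 2 := sq_le_sq' (by linarith [(abs_le.1 h1).1]) (abs_le.1 h1).2
  have h6 : |ζ r * fx r x ^ 2| ≤ C ^ 2 := by
    rw [abs_of_nonneg (mul_nonneg h3 (sq_nonneg _))]
    nlinarith [sq_nonneg (fx r x)]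
  have h7 := abs_add_le (fxx r x) (ζ r * fx r x ^ 2)
  exact mul_le_mul_of_nonneg_left (by linarith) (sq_nonneg β)

lemma f_sub (hζ : IsCdf ζ)
    (hcx : ContinuousOn (fun p : ℝ × ℝ => fx p.1 p.2) (Icc 0 1 ×ˢ univ))
    (hcxx : ContinuousOn (fun p : ℝ × ℝ => fxx p.1 p.2) (Icc 0 1 ×ˢ univ))
    (hint : ∀ t ∈ Icc (0 : ℝ) 1, ∀ x, f t x =
      Real.log (Real.cosh x) + ∫ r in t..1, β ^ 2 * (fxx r x + ζ r * fx r x ^ 2))
    {s t : ℝ} (hs : s ∈ Icc (0 : ℝ) 1) (ht : t ∈ Icc (0 : ℝ) 1) (x : ℝ) :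
    f s x - f t x = ∫ r in s..t, gg β ζ fx fxx x r := by
  have h1 : (1 : ℝ) ∈ Icc (0 : ℝ) 1 := ⟨zero_le_one, le_rfl⟩
  have h2 := intervalIntegral.integral_add_adjacent_intervals
    (gg_int (β := β) hζ hcx hcxx hs ht x) (gg_int (β := β) hζ hcx hcxx ht h1 x)
  have h3 := hint s hs x
  have h4 := hint t ht x
  change f s x = Real.log (Real.cosh x) + ∫ r in s..1, gg β ζ fx fxx x r at h3
  change f t x = Real.log (Real.cosh x) + ∫ r in t..1, gg β ζ fx fxx x r at h4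
  rw [h3, h4, ← h2]
  ring

lemma f_lip_t (hζ : IsCdf ζ)
    (hcx : ContinuousOn (fun p : ℝ × ℝ => fx p.1 p.2) (Icc 0 1 ×ˢ univ))
    (hcxx : ContinuousOn (fun p : ℝ × ℝ => fxx p.1 p.2) (Icc 0 1 ×ˢ univ))
    (hC : ∀ t ∈ Icc (0 : ℝ) 1, ∀ x, |fx t x| ≤ C ∧ |fxx t x| ≤ C)
    (hint : ∀ t ∈ Icc (0 : ℝ) 1, ∀ x, f t x =
      Real.log (Real.cosh x) + ∫ r in t..1, β ^ 2 * (fxx r x + ζ r * fx r x ^ 2))
    {s t : ℝ} (hs : s ∈ Icc (0 : ℝ) 1) (ht : t ∈ Icc (0 : ℝ) 1) (x : ℝ) :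
    |f s x - f t x| ≤ β ^ 2 * (C + C ^ 2) * |t - s| := by
  rw [f_sub hζ hcx hcxx hint hs ht x, ← Real.norm_eq_abs]
  refine intervalIntegral.norm_integral_le_of_norm_le_const fun r hr => ?_
  rw [Real.norm_eq_abs]
  exact gg_bd hζ hC (uIcc_subset_Icc hs ht (uIoc_subset_uIcc hr)) x

lemma f_lip_x (hder : ∀ t ∈ Icc (0 : ℝ) 1, ∀ x,
      HasDerivAt (f t) (fx t x) x ∧ HasDerivAt (fx t) (fxx t x) x)
    (hC : ∀ t ∈ Icc (0 : ℝ) 1, ∀ x, |fx t x| ≤ C ∧ |fxx t x| ≤ C)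
    {t : ℝ} (ht : t ∈ Icc (0 : ℝ) 1) (x y : ℝ) : |f t y - f t x| ≤ C * |y - x| :=
  (convex_univ : Convex ℝ (univ : Set ℝ)).norm_image_sub_le_of_norm_hasDerivWithin_le (f := f t) (f' := fx t) (C := C)
    (fun u _ => (hder t ht u).1.hasDerivWithinAt) (fun u _ => (hC t ht u).1)
    (mem_univ x) (mem_univ y)

/-- Lipschitz functions of `(t,x)` are continuous -/
lemma cont_of_lip {F : ℝ → ℝ → ℝ} {s : Set ℝ} {M N : ℝ} (hM : 0 ≤ M) (hN : 0 ≤ N)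
    (h1 : ∀ t ∈ s, ∀ t' ∈ s, ∀ x, |F t x - F t' x| ≤ M * |t' - t|)
    (h2 : ∀ t ∈ s, ∀ x y, |F t y - F t x| ≤ N * |y - x|) :
    ContinuousOn (fun p : ℝ × ℝ => F p.1 p.2) (s ×ˢ univ) := by
  have h : LipschitzOnWith (Real.toNNReal (M + N)) (fun p : ℝ × ℝ => F p.1 p.2) (s ×ˢ univ) := by
    refine LipschitzOnWith.of_dist_le_mul fun p hp q hq => ?_
    rw [Real.coe_toNNReal _ (add_nonneg hM hN), Real.dist_eq]
    have e1 := h1 p.1 hp.1 q.1 hq.1 p.2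
    have e2 := h2 q.1 hq.1 q.2 p.2
    have e3 : |q.1 - p.1| ≤ dist p q := by
      rw [abs_sub_comm, ← Real.dist_eq]; exact le_max_left _ _
    have e4 : |p.2 - q.2| ≤ dist p q := by
      rw [← Real.dist_eq]; exact le_max_right _ _
    have e5 : F p.1 p.2 - F q.1 q.2 = (F p.1 p.2 - F q.1 p.2) + (F q.1 p.2 - F q.1 q.2) := by ring
    rw [e5]
    refine (abs_add_le _ _).trans ?_
    have e6 : M * |q.1 - p.1| ≤ M * dist p q := mul_le_mul_of_nonneg_left e3 hM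
    have e7 : N * |p.2 - q.2| ≤ N * dist p q := mul_le_mul_of_nonneg_left e4 hN
    nlinarith
  exact h.continuousOn

lemma C_nonneg (hC : ∀ t ∈ Icc (0 : ℝ) 1, ∀ x, |fx t x| ≤ C ∧ |fxx t x| ≤ C) : 0 ≤ C :=
  (abs_nonneg _).trans (hC 0 ⟨le_rfl, zero_le_one⟩ 0).1

lemma f_cont (hζ : IsCdf ζ)
    (hder : ∀ t ∈ Icc (0 : ℝ) 1, ∀ x,
      HasDerivAt (f t) (fx t x) x ∧ HasDerivAt (fx t) (fxx t x) x)
    (hcx : ContinuousOn (fun p : ℝ × ℝ => fx p.1 p.2) (Icc 0 1 ×ˢ univ))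
    (hcxx : ContinuousOn (fun p : ℝ × ℝ => fxx p.1 p.2) (Icc 0 1 ×ˢ univ))
    (hC : ∀ t ∈ Icc (0 : ℝ) 1, ∀ x, |fx t x| ≤ C ∧ |fxx t x| ≤ C)
    (hint : ∀ t ∈ Icc (0 : ℝ) 1, ∀ x, f t x =
      Real.log (Real.cosh x) + ∫ r in t..1, β ^ 2 * (fxx r x + ζ r * fx r x ^ 2)) :
    ContinuousOn (fun p : ℝ × ℝ => f p.1 p.2) (Icc 0 1 ×ˢ univ) := by
  have h0 := C_nonneg hC
  exact cont_of_lip (M := β ^ 2 * (C + C ^ 2)) (N := C) (by positivity) h0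
    (fun t ht t' ht' x => f_lip_t hζ hcx hcxx hC hint ht ht' x)
    (fun t ht x y => f_lip_x hder hC ht x y)

lemma f_rderiv (hζ : IsCdf ζ)
    (hcx : ContinuousOn (fun p : ℝ × ℝ => fx p.1 p.2) (Icc 0 1 ×ˢ univ))
    (hcxx : ContinuousOn (fun p : ℝ × ℝ => fxx p.1 p.2) (Icc 0 1 ×ˢ univ))
    (hint : ∀ t ∈ Icc (0 : ℝ) 1, ∀ x, f t x =
      Real.log (Real.cosh x) + ∫ r in t..1, β ^ 2 * (fxx r x + ζ r * fx r x ^ 2))
    {t : ℝ} (ht : t ∈ Ico (0 : ℝ) 1) (x : ℝ) :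
    HasDerivWithinAt (fun τ => f τ x) (-(β ^ 2 * (fxx t x + ζ t * fx t x ^ 2))) (Ici t) t := by
  have h1 : (1 : ℝ) ∈ Icc (0 : ℝ) 1 := ⟨zero_le_one, le_rfl⟩
  have ht' : t ∈ Icc (0 : ℝ) 1 := ⟨ht.1, ht.2.le⟩
  have hi := gg_int (β := β) hζ hcx hcxx ht' h1 x
  have hsub : Icc t 1 ⊆ Icc (0 : ℝ) 1 := Icc_subset_Icc ht.1 le_rfl
  have hmem : Icc t 1 ∈ 𝓝[≥] t := Icc_mem_nhdsGE ht.2
  have hc : ContinuousWithinAt (gg β ζ fx fxx x) (Ici t) t := by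
    have e1 : ContinuousWithinAt (fun r => fxx r x) (Ici t) t :=
      (((sec_cont hcxx x).mono hsub) t ⟨le_rfl, ht.2.le⟩).mono_of_mem_nhdsWithin hmem
    have e2 : ContinuousWithinAt (fun r => fx r x) (Ici t) t :=
      (((sec_cont hcx x).mono hsub) t ⟨le_rfl, ht.2.le⟩).mono_of_mem_nhdsWithin hmem
    exact continuousWithinAt_const.mul (e1.add ((hζ.2.2.2 t ht).mul (e2.pow 2)))
  have hmeas : StronglyMeasurableAtFilter (gg β ζ fx fxx x) (𝓝[>] t) volume := by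
    refine ⟨Ioc t 1, Ioc_mem_nhdsGT ht.2, ?_⟩
    exact hi.1.aestronglyMeasurable
  have hd2 : HasDerivWithinAt (fun u => ∫ r in u..1, gg β ζ fx fxx x r)
      (-gg β ζ fx fxx x t) (Ici t) t :=
    intervalIntegral.integral_hasDerivWithinAt_left hi hmeas (hc.mono Ioi_subset_Ici_self)
  have hd3 := hd2.const_add (Real.log (Real.cosh x))
  refine hd3.congr_of_eventuallyEq ?_ (hint t ht' x)
  filter_upwards [hmem] with τ hτ
  exact hint τ (hsub hτ) x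

end Parisi

lemma sh {F : ℝ → ℝ} {F' x : ℝ} (h : HasDerivAt F F' x) : HasDerivAt (fun u => F (x + u)) F' 0 := by
  have h2 : HasDerivAt F F' (x + 0) := by simpa using h
  exact h2.comp_const_add x 0

/-- the comparison lemma -/
theorem cmp (hMAX : St_MAX) {β T0 T1 : ℝ} {ζ : ℝ → ℝ} {f : ℝ → ℝ → ℝ} (hβ : 0 < β) (h0 : 0 ≤ T0)
    (h01 : T0 ≤ T1) (h1 : T1 ≤ 1) (hζ : IsCdf ζ) (hf : IsParisi β ζ f)
    (H Ht Hx Hxx A At Ax Axx c1 : ℝ → ℝ → ℝ) (K : ℝ)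
    (hHc : ContinuousOn (fun p : ℝ × ℝ => H p.1 p.2) (Icc T0 T1 ×ˢ univ))
    (hAc : ContinuousOn (fun p : ℝ × ℝ => A p.1 p.2) (Icc T0 T1 ×ˢ univ))
    (hHt : ∀ t ∈ Ico T0 T1, ∀ x, HasDerivWithinAt (fun τ => H τ x) (Ht t x) (Ici t) t)
    (hAt : ∀ t ∈ Ico T0 T1, ∀ x, HasDerivWithinAt (fun τ => A τ x) (At t x) (Ici t) t)
    (hHx : ∀ t ∈ Ico T0 T1, ∀ x, HasDerivAt (H t) (Hx t x) x ∧ HasDerivAt (Hx t) (Hxx t x) x)
    (hAx : ∀ t ∈ Ico T0 T1, ∀ x, HasDerivAt (A t) (Ax t x) x ∧ HasDerivAt (Ax t) (Axx t x) x)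
    (hc1 : ∀ t ∈ Ico T0 T1, ∀ x, |c1 t x| ≤ K)
    (hHb : ∀ t ∈ Icc T0 T1, ∀ x, |H t x| ≤ K * (1 + |x|))
    (hAb : ∀ t ∈ Icc T0 T1, ∀ x, |A t x| ≤ K)
    (eA : ∀ t ∈ Ico T0 T1, ∀ x, At t x + β ^ 2 * Axx t x + c1 t x * Ax t x = 0)
    (eH : ∀ t ∈ Ico T0 T1, ∀ x,
      Ht t x + β ^ 2 * Hxx t x + c1 t x * (Hx t x - A t x) = -(β ^ 2 * ζ t * A t x ^ 2))
    (hT : ∀ x y, H T1 x + (y - x) * A T1 x ≤ f T1 y) :
    ∀ t ∈ Icc T0 T1, ∀ x y, H t x + (y - x) * A t x ≤ f t y := by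
  obtain ⟨fx, fxx, hder, hcx, hcxx, ⟨C, hC⟩, hint⟩ := hf
  have hC0 := C_nonneg hC
  have hK0 : 0 ≤ K := (abs_nonneg _).trans (hAb T0 ⟨le_rfl, h01⟩ 0)
  have hsub : Icc T0 T1 ⊆ Icc (0 : ℝ) 1 := Icc_subset_Icc h0 h1
  have hsub' : Ico T0 T1 ⊆ Icc (0 : ℝ) 1 := fun t ht => hsub ⟨ht.1, ht.2.le⟩
  have hfc := f_cont hζ hder hcx hcxx hC hint
  -- growth of `f`
  obtain ⟨M, hM0, hM⟩ : ∃ M : ℝ, 0 ≤ M ∧ ∀ t ∈ Icc (0 : ℝ) 1, ∀ y, |f t y| ≤ M * (1 + |y|) := by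
    refine ⟨β ^ 2 * (C + C ^ 2) + C + |f 1 0|, by positivity, fun t ht y => ?_⟩
    have e1 := f_lip_t hζ hcx hcxx hC hint ht (t := 1) ⟨zero_le_one, le_rfl⟩ 0
    have e2 := f_lip_x hder hC ht 0 y
    have e3 : |1 - t| ≤ 1 := by rw [abs_of_nonneg (by linarith [ht.2])]; linarith [ht.1]
    have e5 : |f t y| ≤ |f t y - f t 0| + |f t 0 - f 1 0| + |f 1 0| := by
      have e4 := abs_add_three (f t y - f t 0) (f t 0 - f 1 0) (f 1 0)
      have e4' : (f t y - f t 0) + (f t 0 - f 1 0) + f 1 0 = f t y := by ring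
      rwa [e4'] at e4
    have e6 : 0 ≤ β ^ 2 * (C + C ^ 2) := by positivity
    rw [sub_zero] at e2
    have e7 : β ^ 2 * (C + C ^ 2) * |1 - t| ≤ β ^ 2 * (C + C ^ 2) := by nlinarith
    nlinarith [abs_nonneg y, abs_nonneg (f 1 0), mul_nonneg e6 (abs_nonneg y),
      mul_nonneg (abs_nonneg (f 1 0)) (abs_nonneg y), mul_nonneg hC0 (abs_nonneg y)]
  have key := hMAX (2 * β ^ 2) T0 T1 (M + K + 3 * K + 2 * β ^ 2 * K)
    (fun t x y => f t y - (H t x + (y - x) * A t x))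
    (fun t x y => -(β ^ 2 * (fxx t y + ζ t * fx t y ^ 2)) - (Ht t x + (y - x) * At t x))
    (fun t x y => fx t y - (Hx t x + (y - x) * Ax t x))
    (fun t x y => fxx t y - (Hxx t x + (y - x) * Axx t x))
    (fun t x y => -(Hx t x + (-A t x + (y - x) * Ax t x)))
    (fun t x y => fx t y - A t x)
    (fun t x _ => c1 t x) (fun t x _ => 2 * β ^ 2 * ζ t * A t x) (by positivity) h01
    ?_ ?_ ?_ ?_
  · intro t ht x y
    have := key t ht x y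
    linarith
  · -- continuity
    have m1 : ContinuousOn (fun p : ℝ × ℝ × ℝ => f p.1 p.2.2) (Icc T0 T1 ×ˢ univ) := by
      have : ContinuousOn (fun p : ℝ × ℝ × ℝ => ((p.1, p.2.2) : ℝ × ℝ)) (Icc T0 T1 ×ˢ univ) := by
        fun_prop
      exact hfc.comp this (fun p hp => ⟨hsub hp.1, mem_univ _⟩)
    have m2 : ContinuousOn (fun p : ℝ × ℝ × ℝ => H p.1 p.2.1) (Icc T0 T1 ×ˢ univ) := by
      have : ContinuousOn (fun p : ℝ × ℝ × ℝ => ((p.1, p.2.1) : ℝ × ℝ)) (Icc T0 T1 ×ˢ univ) := by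
        fun_prop
      exact hHc.comp this (fun p hp => ⟨hp.1, mem_univ _⟩)
    have m3 : ContinuousOn (fun p : ℝ × ℝ × ℝ => A p.1 p.2.1) (Icc T0 T1 ×ˢ univ) := by
      have : ContinuousOn (fun p : ℝ × ℝ × ℝ => ((p.1, p.2.1) : ℝ × ℝ)) (Icc T0 T1 ×ˢ univ) := by
        fun_prop
      exact hAc.comp this (fun p hp => ⟨hp.1, mem_univ _⟩)
    have m4 : ContinuousOn (fun p : ℝ × ℝ × ℝ => p.2.2 - p.2.1) (Icc T0 T1 ×ˢ univ) := by fun_prop
    exact m1.sub (m2.add (m4.mul m3))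
  · intro t ht x y
    have ht1 := hsub' ht
    have htc : t ∈ Icc T0 T1 := ⟨ht.1, ht.2.le⟩
    have ht2 : t ∈ Ico (0 : ℝ) 1 := ⟨ht1.1, lt_of_lt_of_le ht.2 h1⟩
    have hz := hζ.2.1 t ht1
    refine ⟨?_, ?_, ?_, ?_, ?_, ?_, ?_, ?_⟩
    · exact (f_rderiv hζ hcx hcxx hint ht2 y).sub
        ((hHt t ht x).add ((hAt t ht x).const_mul (y - x)))
    · have d1 := sh (hder t ht1 y).1
      have d2 := sh (hHx t ht x).1
      have d3 := (sh (hAx t ht x).1).const_mul (y - x)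
      refine (d1.sub (d2.add d3)).congr_of_eventuallyEq (Eventually.of_forall fun u => ?_)
      simp only [Pi.sub_apply, Pi.add_apply]
      ring
    · have d1 := sh (hder t ht1 y).2
      have d2 := sh (hHx t ht x).2
      have d3 := (sh (hAx t ht x).2).const_mul (y - x)
      refine (d1.sub (d2.add d3)).congr_of_eventuallyEq (Eventually.of_forall fun u => ?_)
      simp only [Pi.sub_apply, Pi.add_apply]
      ring
    · have d2 := (hHx t ht x).1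
      have d3 : HasDerivAt (fun u => (y - u) * A t u) (-1 * A t x + (y - x) * Ax t x) x :=
        ((hasDerivAt_id x).const_sub y).mul (hAx t ht x).1
      have d4 := ((d2.add d3).const_sub (f t y))
      refine d4.congr_deriv ?_
      ring
    · have d1 := (hder t ht1 y).1
      have d3 : HasDerivAt (fun u => (u - x) * A t x) (1 * A t x) y :=
        ((hasDerivAt_id y).sub_const x).mul_const (A t x)
      have d4 := d1.sub ((d3.const_add (H t x)))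
      refine d4.congr_deriv ?_
      ring
    · have := hc1 t ht x
      have e : 0 ≤ β ^ 2 * K := by positivity
      linarith
    · have e1 := hAb t htc x
      have e2 : |2 * β ^ 2 * ζ t * A t x| = 2 * β ^ 2 * (ζ t * |A t x|) := by
        rw [abs_mul, abs_of_nonneg (by have := hz.1; positivity)]
        ring
      rw [e2]
      have e3 : ζ t * |A t x| ≤ K := by nlinarith [hz.1, hz.2, abs_nonneg (A t x)]
      have e4 : 2 * β ^ 2 * (ζ t * |A t x|) ≤ 2 * β ^ 2 * K :=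
        mul_le_mul_of_nonneg_left e3 (by positivity)
      linarith
    · have q1 := eA t ht x
      have q2 := eH t ht x
      have e5 : (-(β ^ 2 * (fxx t y + ζ t * fx t y ^ 2)) - (Ht t x + (y - x) * At t x)) +
          2 * β ^ 2 / 2 * (fxx t y - (Hxx t x + (y - x) * Axx t x)) +
          c1 t x * -(Hx t x + (-A t x + (y - x) * Ax t x)) +
          2 * β ^ 2 * ζ t * A t x * (fx t y - A t x) =
          -(β ^ 2 * ζ t * (fx t y - A t x) ^ 2) -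
          (Ht t x + β ^ 2 * Hxx t x + c1 t x * (Hx t x - A t x) + β ^ 2 * ζ t * A t x ^ 2) -
          (y - x) * (At t x + β ^ 2 * Axx t x + c1 t x * Ax t x) := by ring
      rw [e5, q1, q2]
      have e6 : 0 ≤ β ^ 2 * ζ t * (fx t y - A t x) ^ 2 := by
        have := hz.1; positivity
      linarith
  · intro x y
    have := hT x y
    linarith
  · intro t ht x y
    have e1 := hM t (hsub ht) y
    have e2 := hHb t ht x
    have e3 := hAb t ht x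
    have e4 : |(y - x) * A t x| ≤ K * (|x| + |y|) := by
      rw [abs_mul]
      have : |y - x| ≤ |x| + |y| := by
        rw [sub_eq_add_neg]; refine (abs_add_le _ _).trans ?_; rw [abs_neg]; linarith
      nlinarith [abs_nonneg (y - x), abs_nonneg (A t x), abs_nonneg x, abs_nonneg y]
    have b1 := (abs_le.1 e1).1
    have b2 := (abs_le.1 e2).2
    have b3 := (abs_le.1 e4).2
    have b4 : 0 ≤ β ^ 2 * K * (1 + |x| + |y|) := by positivity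
    nlinarith [abs_nonneg x, abs_nonneg y, mul_nonneg hM0 (abs_nonneg x),
      mul_nonneg hK0 (abs_nonneg x), mul_nonneg hK0 (abs_nonneg y)]

end Pool.TH879.AT
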