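import Pool.Agent.TH879.AT.Pack

/-!
# Phase 1
-/

set_option autoImplicit false

open MeasureTheory ProbabilityTheory Set Filter Topology

namespace Pool.TH879.AT

open Pool.TH198.AT

lemma hd_tanh (x : ℝ) : HasDerivAt Real.tanh (1 - Real.tanh x ^ 2) x := by
  have hc : Real.cosh x ≠ 0 := (Real.cosh_pos x).ne'
  have h := (Real.hasDerivAt_sinh x).div (Real.hasDerivAt_cosh x) hc
  have e : (fun x => Real.sinh x / Real.cosh x) = Real.tanh := by
    funext x; rw [Real.tanh_eq_sinh_div_cosh]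
  have e2 : (Real.cosh x * Real.cosh x - Real.sinh x * Real.sinh x) / Real.cosh x ^ 2 =
      1 - Real.tanh x ^ 2 := by
    rw [Real.tanh_eq_sinh_div_cosh]
    field_simp
  rw [← e2, ← e]
  exact h

lemma hd_lc (x : ℝ) : HasDerivAt (fun x => Real.log (Real.cosh x)) (Real.tanh x) x := by
  have h := (Real.hasDerivAt_cosh x).log (Real.cosh_pos x).ne'
  rwa [← Real.tanh_eq_sinh_div_cosh] at h

lemma hd_sech2 (x : ℝ) :
    HasDerivAt (fun x => 1 - Real.tanh x ^ 2) (-2 * Real.tanh x * (1 - Real.tanh x ^ 2)) x := by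
  have h := ((hd_tanh x).pow 2).const_sub 1
  refine h.congr_deriv ?_
  push_cast
  ring

lemma abs_lc (x : ℝ) : |Real.log (Real.cosh x)| ≤ |x| := by
  have h := (convex_univ : Convex ℝ (univ : Set ℝ)).norm_image_sub_le_of_norm_hasDerivWithin_le
    (f := fun x => Real.log (Real.cosh x)) (f' := Real.tanh) (C := 1)
    (fun u _ => (hd_lc u).hasDerivWithinAt)
    (fun u _ => (Real.abs_tanh_lt_one u).le) (mem_univ 0) (mem_univ x)
  simpa using h

lemma lc_tangent (x y : ℝ) :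
    Real.log (Real.cosh x) + (y - x) * Real.tanh x ≤ Real.log (Real.cosh y) := by
  set T := Real.tanh x with hT
  set u := y - x with hu
  have hT1 := Real.abs_tanh_lt_one x
  rw [← hT, abs_lt] at hT1
  have e1 : Real.cosh y = Real.cosh x * (Real.cosh u + T * Real.sinh u) := by
    have : y = x + u := by rw [hu]; ring
    rw [this, Real.cosh_add, hT, Real.tanh_eq_sinh_div_cosh]
    have hc : Real.cosh x ≠ 0 := (Real.cosh_pos x).ne'
    field_simp
  have e2 : Real.exp (u * T) ≤ Real.cosh u + T * Real.sinh u := by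
    have h := convexOn_exp.2 (mem_univ u) (mem_univ (-u)) (show 0 ≤ (1 + T) / 2 by linarith)
      (show 0 ≤ (1 - T) / 2 by linarith) (by ring)
    simp only [smul_eq_mul] at h
    have e3 : (1 + T) / 2 * u + (1 - T) / 2 * -u = u * T := by ring
    rw [e3] at h
    rw [Real.cosh_eq, Real.sinh_eq]
    linarith
  rw [e1, Real.log_mul (Real.cosh_pos x).ne' (lt_of_lt_of_le (Real.exp_pos _) e2).ne']
  have e4 := Real.log_le_log (Real.exp_pos _) e2
  rw [Real.log_exp] at e4
  linarith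

theorem t_PH1 (hMAX : St_MAX) (hLEIB : St_LEIB) (hKD : St_KD) : St_PH1 := by
  intro β q ζ f hβ hq0 hq1 hζ hf x y
  obtain ⟨Kx, Kxx, CK, hKx, hKw, cK, cKx, cKxx, hKb, hK0⟩ := hKD
  have hCK : 0 ≤ CK := (abs_nonneg _).trans (hKb 0 0 le_rfl).1
  set a : ℝ := 2 * β ^ 2 with ha
  have ha0 : 0 < a := by positivity
  set ρ : ℝ → ℝ := fun r => zt ζ r - 1 with hρ
  have hm : Measurable ρ := (zt_meas hζ).sub_const 1
  have hb : ∀ r, |ρ r| ≤ 1 := by
    intro r
    have := zt_mem hζ r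
    rw [hρ, abs_le]
    constructor <;> simp only <;> linarith
  have hr : ∀ t ∈ Ico q 1, ContinuousWithinAt ρ (Ici t) t := fun t ht =>
    (zt_rc hζ ⟨hq0.trans ht.1, ht.2⟩).sub continuousWithinAt_const
  -- the pack
  have hcomp : ∀ {F : ℝ → ℝ → ℝ},
      ContinuousOn (fun p : ℝ × ℝ => F p.1 p.2) (Ici 0 ×ˢ univ) → ∀ x : ℝ,
      ContinuousOn (fun p : ℝ × ℝ => F p.2 x) (Icc q 1 ×ˢ Ici 0) := by
    intro F hF x
    have h2 : ContinuousOn (fun p : ℝ × ℝ => ((p.2, x) : ℝ × ℝ)) (Icc q 1 ×ˢ Ici 0) := by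
      fun_prop
    exact hF.comp h2 (fun p hp => ⟨hp.2, mem_univ _⟩)
  have P : Pack q 1 (2 * CK) (fun _ w x => KK w x) (fun _ w x => Kx w x)
      (fun _ w x => Kxx w x) (fun _ w x => Kxx w x / 2 + Real.tanh x * Kx w x) := by
    refine ⟨fun r _ w hw x => hKx w x hw, fun r _ w hw x => hKw w x hw, fun x => hcomp cK x,
      fun x => hcomp cKx x, fun x => hcomp cKxx x, fun x => ?_, fun r _ w hw x => ?_⟩
    · exact ((hcomp cKxx x).div_const 2).add ((hcomp cKx x).const_mul (Real.tanh x))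
    · obtain ⟨b1, b2, b3⟩ := hKb w x hw
      refine ⟨by linarith, by linarith, by linarith, ?_⟩
      have e1 := abs_add_le (Kxx w x / 2) (Real.tanh x * Kx w x)
      rw [abs_mul, abs_div, abs_of_pos (by norm_num : (0 : ℝ) < 2)] at e1
      have e2 := (Real.abs_tanh_lt_one x).le
      nlinarith [abs_nonneg (Real.tanh x), abs_nonneg (Kx w x)]
  obtain ⟨R1, R2, R3, R4⟩ := RR_all hLEIB (a := a) ha0 (by linarith) (by linarith) hm hb hr P
  -- linearity
  have lin : ∀ t ∈ Icc q 1, ∀ x, RR a 1 ρ (fun _ w x => Kxx w x / 2 + Real.tanh x * Kx w x) t x =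
      RR a 1 ρ (fun _ w x => Kxx w x) t x / 2 +
        Real.tanh x * RR a 1 ρ (fun _ w x => Kx w x) t x := by
    intro t ht x
    have i1 := diag_int (x := x) (s := t) (s' := 1) (k := fun _ w x => Kxx w x) ha0 ht.1 hm hb
      (P.cxx x) ⟨le_rfl, ht.2⟩ ⟨ht.2, le_rfl⟩
    have i2 := diag_int (x := x) (s := t) (s' := 1) (k := fun _ w x => Kx w x) ha0 ht.1 hm hb
      (P.cx x) ⟨le_rfl, ht.2⟩ ⟨ht.2, le_rfl⟩
    unfold RR
    rw [← intervalIntegral.integral_div, ← intervalIntegral.integral_const_mul,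
      ← intervalIntegral.integral_add (i1.div_const 2) (i2.const_mul _)]
    refine intervalIntegral.integral_congr fun r _ => ?_
    simp only
    ring
  have key := cmp hMAX hβ hq0 hq1 le_rfl hζ hf
    (fun t x => Real.log (Real.cosh x) + β ^ 2 * (1 - t) + β ^ 2 * RR a 1 ρ (fun _ w x => KK w x) t x)
    (fun t x => -β ^ 2 + β ^ 2 * (-(ρ t * KK 0 x) -
      a * RR a 1 ρ (fun _ w x => Kxx w x / 2 + Real.tanh x * Kx w x) t x))
    (fun t x => Real.tanh x + β ^ 2 * RR a 1 ρ (fun _ w x => Kx w x) t x)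
    (fun t x => 1 - Real.tanh x ^ 2 + β ^ 2 * RR a 1 ρ (fun _ w x => Kxx w x) t x)
    (fun _ x => Real.tanh x) (fun _ _ => 0) (fun _ x => 1 - Real.tanh x ^ 2)
    (fun _ x => -2 * Real.tanh x * (1 - Real.tanh x ^ 2)) (fun _ x => a * Real.tanh x)
    (1 + a + β ^ 2 + β ^ 2 * (2 * CK))
    ?_ ?_ ?_ ?_ ?_ ?_ ?_ ?_ ?_ ?_ ?_ ?_ q ⟨le_rfl, hq1⟩ x y
  · -- the conclusion
    have e : RR a 1 ρ (fun _ w x => KK w x) q x = ∫ r in q..1, (ζ r - 1) * KK (2 * β ^ 2 * (r - q)) x := by
      unfold RR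
      refine intervalIntegral.integral_congr fun r hr => ?_
      rw [uIcc_of_le hq1] at hr
      simp only [hρ, zt_eq (ζ := ζ) (⟨hq0.trans hr.1, hr.2⟩ : r ∈ Icc (0 : ℝ) 1), ha]
    rw [e] at key
    exact key
  · -- continuity of H
    have c1 : Continuous fun p : ℝ × ℝ => Real.log (Real.cosh p.2) :=
      (Real.continuous_cosh.comp continuous_snd).log fun p => (Real.cosh_pos _).ne'
    have c2 : Continuous fun p : ℝ × ℝ => β ^ 2 * (1 - p.1) := by fun_prop
    exact ((c1.add c2).continuousOn).add (R1.const_mul (β ^ 2))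
  · have c1 : Continuous fun x : ℝ => Real.tanh x :=
      continuous_iff_continuousAt.2 fun x => (hd_tanh x).continuousAt
    exact (c1.comp continuous_snd).continuousOn
  · intro t ht x
    have d1 : HasDerivAt (fun τ : ℝ => Real.log (Real.cosh x) + β ^ 2 * (1 - τ)) (-β ^ 2) t := by
      have := (((hasDerivAt_id t).const_sub 1).const_mul (β ^ 2)).const_add
        (Real.log (Real.cosh x))
      refine this.congr_deriv ?_
      ring
    exact d1.hasDerivWithinAt.add ((R2 t ht x).const_mul (β ^ 2))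
  · intro t ht x
    exact hasDerivWithinAt_const _ _ _
  · intro t ht x
    have htc : t ∈ Icc q 1 := ⟨ht.1, ht.2.le⟩
    refine ⟨?_, ?_⟩
    · exact ((hd_lc x).add_const _).add ((R3 t htc x).1.const_mul (β ^ 2))
    · exact (hd_tanh x).add ((R3 t htc x).2.const_mul (β ^ 2))
  · intro t ht x
    exact ⟨hd_tanh x, hd_sech2 x⟩
  · intro t ht x
    rw [abs_mul, abs_of_pos ha0]
    have e2 := (Real.abs_tanh_lt_one x).le
    have e3 : 0 ≤ β ^ 2 * (2 * CK) := by positivity
    nlinarith [sq_nonneg β]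
  · intro t ht x
    have e1 := abs_lc x
    have e2 := R4 t ht x
    have e3 := abs_add_three (Real.log (Real.cosh x)) (β ^ 2 * (1 - t))
      (β ^ 2 * RR a 1 ρ (fun _ w x => KK w x) t x)
    have e4 : |β ^ 2 * (1 - t)| ≤ β ^ 2 := by
      rw [abs_of_nonneg (mul_nonneg (sq_nonneg _) (by linarith [ht.2]))]
      nlinarith [sq_nonneg β, ht.1]
    have e5 : |β ^ 2 * RR a 1 ρ (fun _ w x => KK w x) t x| ≤ β ^ 2 * (2 * CK) := by
      rw [abs_mul, abs_of_nonneg (sq_nonneg β)]
      exact mul_le_mul_of_nonneg_left e2 (sq_nonneg β)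
    have e6 : 0 ≤ a + β ^ 2 + β ^ 2 * (2 * CK) := by positivity
    nlinarith [abs_nonneg x, mul_nonneg e6 (abs_nonneg x)]
  · intro t ht x
    have e2 := (Real.abs_tanh_lt_one x).le
    have e6 : 0 ≤ a + β ^ 2 + β ^ 2 * (2 * CK) := by positivity
    linarith
  · intro t ht x
    simp only [ha]
    ring
  · intro t ht x
    have htc : t ∈ Icc q 1 := ⟨ht.1, ht.2.le⟩
    have hz : zt ζ t = ζ t := zt_eq ⟨hq0.trans ht.1, ht.2.le⟩
    have hρt : ρ t = ζ t - 1 := by simp only [hρ, hz]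
    rw [lin t htc x, hK0, hρt, ha]
    ring
  · intro x y
    have h1 : f 1 y = Real.log (Real.cosh y) := by
      obtain ⟨fx, fxx, -, -, -, -, hint⟩ := hf
      rw [hint 1 ⟨zero_le_one, le_rfl⟩ y, intervalIntegral.integral_same, add_zero]
    have h2 : RR a 1 ρ (fun _ w x => KK w x) 1 x = 0 := intervalIntegral.integral_same
    simp only [h1, h2]
    have := lc_tangent x y
    linarith

end Pool.TH879.AT
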