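import Pool.Agent.TH879.AT.Cmp

/-!
# The source term `∫_t^{T1} ρ(r) k(r, a (r - t), x) dr`
-/

set_option autoImplicit false

open MeasureTheory ProbabilityTheory Set Filter Topology

namespace Pool.TH879.AT

open Pool.TH198.AT

structure Pack (T0 T1 C : ℝ) (k kx kxx kw : ℝ → ℝ → ℝ → ℝ) : Prop where
  dx : ∀ r ∈ Icc T0 T1, ∀ w, 0 ≤ w → ∀ x,
    HasDerivAt (k r w) (kx r w x) x ∧ HasDerivAt (kx r w) (kxx r w x) x
  dw : ∀ r ∈ Icc T0 T1, ∀ w, 0 < w → ∀ x, HasDerivAt (fun w => k r w x) (kw r w x) w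
  c0 : ∀ x, ContinuousOn (fun p : ℝ × ℝ => k p.1 p.2 x) (Icc T0 T1 ×ˢ Ici 0)
  cx : ∀ x, ContinuousOn (fun p : ℝ × ℝ => kx p.1 p.2 x) (Icc T0 T1 ×ˢ Ici 0)
  cxx : ∀ x, ContinuousOn (fun p : ℝ × ℝ => kxx p.1 p.2 x) (Icc T0 T1 ×ˢ Ici 0)
  cw : ∀ x, ContinuousOn (fun p : ℝ × ℝ => kw p.1 p.2 x) (Icc T0 T1 ×ˢ Ici 0)
  b : ∀ r ∈ Icc T0 T1, ∀ w, 0 ≤ w → ∀ x,
    |k r w x| ≤ C ∧ |kx r w x| ≤ C ∧ |kxx r w x| ≤ C ∧ |kw r w x| ≤ C

/-- `∫_t^{T} ρ(r) k(r, a (r - t), x) dr` -/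
noncomputable def RR (a T : ℝ) (ρ : ℝ → ℝ) (k : ℝ → ℝ → ℝ → ℝ) (t x : ℝ) : ℝ :=
  ∫ r in t..T, ρ r * k r (a * (r - t)) x

lemma rho_int {ρ : ℝ → ℝ} (hm : Measurable ρ) (hb : ∀ r, |ρ r| ≤ 1) (s t : ℝ) :
    IntervalIntegrable ρ volume s t :=
  (intervalIntegrable_const (c := (1 : ℝ))).mono_fun' hm.aestronglyMeasurable
    (ae_of_all _ fun r => hb r)

lemma diag_cont {a T0 T1 t : ℝ} (ha : 0 < a) (ht : T0 ≤ t) {k : ℝ → ℝ → ℝ → ℝ} {x : ℝ}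
    (hk : ContinuousOn (fun p : ℝ × ℝ => k p.1 p.2 x) (Icc T0 T1 ×ˢ Ici 0)) :
    ContinuousOn (fun r => k r (a * (r - t)) x) (Icc t T1) := by
  have h2 : ContinuousOn (fun r : ℝ => ((r, a * (r - t)) : ℝ × ℝ)) (Icc t T1) := by fun_prop
  exact hk.comp h2 (fun r hr => ⟨⟨ht.trans hr.1, hr.2⟩, mul_nonneg ha.le (sub_nonneg.2 hr.1)⟩)

lemma diag_int {a T0 T1 t s s' : ℝ} (ha : 0 < a) (ht : T0 ≤ t) {ρ : ℝ → ℝ} (hm : Measurable ρ)
    (hb : ∀ r, |ρ r| ≤ 1) {k : ℝ → ℝ → ℝ → ℝ} {x : ℝ}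
    (hk : ContinuousOn (fun p : ℝ × ℝ => k p.1 p.2 x) (Icc T0 T1 ×ˢ Ici 0))
    (hs : s ∈ Icc t T1) (hs' : s' ∈ Icc t T1) :
    IntervalIntegrable (fun r => ρ r * k r (a * (r - t)) x) volume s s' :=
  (rho_int hm hb s s').mul_continuousOn ((diag_cont ha ht hk).mono (uIcc_subset_Icc hs hs'))

/-- derivative in `x` of the source term -/
lemma RR_dx {a T0 T1 t C : ℝ} (ha : 0 < a) (ht : T0 ≤ t) (ht1 : t ≤ T1) {ρ : ℝ → ℝ}
    (hm : Measurable ρ) (hb : ∀ r, |ρ r| ≤ 1) {k kx : ℝ → ℝ → ℝ → ℝ}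
    (hk : ∀ x, ContinuousOn (fun p : ℝ × ℝ => k p.1 p.2 x) (Icc T0 T1 ×ˢ Ici 0))
    (hkx : ∀ x, ContinuousOn (fun p : ℝ × ℝ => kx p.1 p.2 x) (Icc T0 T1 ×ˢ Ici 0))
    (hd : ∀ r ∈ Icc T0 T1, ∀ w, 0 ≤ w → ∀ x, HasDerivAt (k r w) (kx r w x) x)
    (hC : ∀ r ∈ Icc T0 T1, ∀ w, 0 ≤ w → ∀ x, |kx r w x| ≤ C) (x : ℝ) :
    HasDerivAt (RR a T1 ρ k t) (RR a T1 ρ kx t x) x := by
  have htt : t ∈ Icc t T1 := ⟨le_rfl, ht1⟩
  have hTT : T1 ∈ Icc t T1 := ⟨ht1, le_rfl⟩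
  have hmem : ∀ r ∈ uIoc t T1, r ∈ Icc T0 T1 ∧ 0 ≤ a * (r - t) := by
    intro r hr
    rw [uIoc_of_le ht1] at hr
    exact ⟨⟨ht.trans hr.1.le, hr.2⟩, mul_nonneg ha.le (sub_nonneg.2 hr.1.le)⟩
  have key := intervalIntegral.hasDerivAt_integral_of_dominated_loc_of_deriv_le (𝕜 := ℝ)
    (μ := volume) (a := t) (b := T1) (F := fun x r => ρ r * k r (a * (r - t)) x)
    (F' := fun x r => ρ r * kx r (a * (r - t)) x) (x₀ := x) (s := univ) (bound := fun _ => C)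
    univ_mem ?_ ?_ ?_ ?_ ?_ ?_
  · exact key.2
  · refine Eventually.of_forall fun x => ?_
    exact (diag_int ha ht hm hb (hk x) htt hTT).def'.aestronglyMeasurable
  · exact diag_int ha ht hm hb (hk x) htt hTT
  · exact (diag_int ha ht hm hb (hkx x) htt hTT).def'.aestronglyMeasurable
  · refine ae_of_all _ fun r hr x _ => ?_
    obtain ⟨h1, h2⟩ := hmem r hr
    rw [Real.norm_eq_abs, abs_mul]
    have e1 := hb r
    have e2 := hC r h1 _ h2 x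
    nlinarith [abs_nonneg (ρ r), abs_nonneg (kx r (a * (r - t)) x)]
  · exact intervalIntegrable_const
  · refine ae_of_all _ fun r hr x _ => ?_
    obtain ⟨h1, h2⟩ := hmem r hr
    exact (hd r h1 _ h2 x).const_mul (ρ r)

/-- bound for the source term -/
lemma RR_bd {a T0 T1 t C : ℝ} (ha : 0 < a) (ht : T0 ≤ t) (ht1 : t ≤ T1) (h1 : T1 - T0 ≤ 1)
    {ρ : ℝ → ℝ} (hb : ∀ r, |ρ r| ≤ 1) {k : ℝ → ℝ → ℝ → ℝ}
    (hC : ∀ r ∈ Icc T0 T1, ∀ w, 0 ≤ w → ∀ x, |k r w x| ≤ C) (hC0 : 0 ≤ C) (x : ℝ) :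
    |RR a T1 ρ k t x| ≤ C := by
  unfold RR
  rw [← Real.norm_eq_abs]
  refine (intervalIntegral.norm_integral_le_of_norm_le_const (C := C) fun r hr => ?_).trans ?_
  · rw [uIoc_of_le ht1] at hr
    rw [Real.norm_eq_abs, abs_mul]
    have e1 := hb r
    have e2 := hC r ⟨ht.trans hr.1.le, hr.2⟩ _ (mul_nonneg ha.le (sub_nonneg.2 hr.1.le)) x
    nlinarith [abs_nonneg (ρ r), abs_nonneg (k r (a * (r - t)) x)]
  · rw [abs_of_nonneg (by linarith)]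
    nlinarith

/-- `w ↦ k r w x` is Lipschitz -/
lemma k_lip {T0 T1 C : ℝ} {k kx kxx kw : ℝ → ℝ → ℝ → ℝ} (P : Pack T0 T1 C k kx kxx kw)
    {r w w' x : ℝ} (hr : r ∈ Icc T0 T1) (hw : 0 ≤ w) (hww : w ≤ w') :
    |k r w' x - k r w x| ≤ C * (w' - w) := by
  rcases hww.eq_or_lt with h | h
  · subst h; simp
  · have hc : ContinuousOn (fun w => k r w x) (Icc w w') := by
      have h2 : ContinuousOn (fun w : ℝ => ((r, w) : ℝ × ℝ)) (Icc w w') := by fun_prop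
      exact (P.c0 x).comp h2 (fun u hu => ⟨hr, hw.trans hu.1⟩)
    obtain ⟨c, hc1, hc2⟩ := exists_hasDerivAt_eq_slope (fun w => k r w x) (fun w => kw r w x) h hc
      (fun u hu => P.dw r hr u (lt_of_le_of_lt hw hu.1) x)
    have e1 := (P.b r hr c (hw.trans hc1.1.le) x).2.2.2
    rw [eq_div_iff (by linarith)] at hc2
    rw [← hc2, abs_mul, abs_of_pos (sub_pos.2 h)]
    exact mul_le_mul_of_nonneg_right e1 (by linarith)

lemma RR_lip_t_aux {a T0 T1 C : ℝ} (ha : 0 < a) (h1 : T1 - T0 ≤ 1) (hC0 : 0 ≤ C)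
    {ρ : ℝ → ℝ} (hm : Measurable ρ) (hb : ∀ r, |ρ r| ≤ 1) {k kx kxx kw : ℝ → ℝ → ℝ → ℝ}
    (P : Pack T0 T1 C k kx kxx kw) {t t' : ℝ} (ht : t ∈ Icc T0 T1) (ht' : t' ∈ Icc T0 T1)
    (htt : t ≤ t') (x : ℝ) :
    |RR a T1 ρ k t x - RR a T1 ρ k t' x| ≤ (C + C * a) * (t' - t) := by
  have i1 := diag_int (s := t) (s' := t') ha ht.1 hm hb (P.c0 x) ⟨le_rfl, htt.trans ht'.2⟩
    ⟨htt, ht'.2⟩
  have i2 := diag_int (s := t') (s' := T1) ha ht.1 hm hb (P.c0 x) ⟨htt, ht'.2⟩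
    ⟨htt.trans ht'.2, le_rfl⟩
  have i3 := diag_int (s := t') (s' := T1) ha ht'.1 hm hb (P.c0 x) ⟨le_rfl, ht'.2⟩
    ⟨ht'.2, le_rfl⟩
  have e1 : RR a T1 ρ k t x - RR a T1 ρ k t' x =
      (∫ r in t..t', ρ r * k r (a * (r - t)) x) +
      ∫ r in t'..T1, (ρ r * k r (a * (r - t)) x - ρ r * k r (a * (r - t')) x) := by
    unfold RR
    rw [intervalIntegral.integral_sub i2 i3,
      ← intervalIntegral.integral_add_adjacent_intervals i1 i2]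
    ring
  have b1 : |∫ r in t..t', ρ r * k r (a * (r - t)) x| ≤ C * (t' - t) := by
    rw [← Real.norm_eq_abs]
    refine (intervalIntegral.norm_integral_le_of_norm_le_const (C := C) fun r hr => ?_).trans ?_
    · rw [uIoc_of_le htt] at hr
      rw [Real.norm_eq_abs, abs_mul]
      have e1 := hb r
      have e2 := (P.b r ⟨ht.1.trans hr.1.le, hr.2.trans ht'.2⟩ _
        (mul_nonneg ha.le (sub_nonneg.2 hr.1.le)) x).1
      nlinarith [abs_nonneg (ρ r), abs_nonneg (k r (a * (r - t)) x)]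
    · rw [abs_of_nonneg (by linarith)]
  have b2 : |∫ r in t'..T1, (ρ r * k r (a * (r - t)) x - ρ r * k r (a * (r - t')) x)| ≤
      C * a * (t' - t) := by
    rw [← Real.norm_eq_abs]
    refine (intervalIntegral.norm_integral_le_of_norm_le_const (C := C * a * (t' - t))
      fun r hr => ?_).trans ?_
    · rw [uIoc_of_le ht'.2] at hr
      rw [← mul_sub, Real.norm_eq_abs, abs_mul]
      have e1 := hb r
      have hr0 : 0 ≤ a * (r - t') := mul_nonneg ha.le (sub_nonneg.2 hr.1.le)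
      have e2 := k_lip P (x := x) (r := r) (w := a * (r - t')) (w' := a * (r - t))
        ⟨ht'.1.trans hr.1.le, hr.2⟩ hr0 (by nlinarith)
      have e3 : C * (a * (r - t) - a * (r - t')) = C * a * (t' - t) := by ring
      rw [e3] at e2
      nlinarith [abs_nonneg (ρ r), abs_nonneg (k r (a * (r - t)) x - k r (a * (r - t')) x)]
    · rw [abs_of_nonneg (by linarith [ht'.2])]
      have : 0 ≤ C * a * (t' - t) := by
        have := sub_nonneg.2 htt; positivity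
      nlinarith [ht'.1]
  rw [e1]
  refine (abs_add_le _ _).trans ?_
  linarith

/-- everything about the source term -/
theorem RR_all (hLEIB : St_LEIB) {a T0 T1 C : ℝ} (ha : 0 < a) (h1 : T1 - T0 ≤ 1) (hC0 : 0 ≤ C)
    {ρ : ℝ → ℝ} (hm : Measurable ρ) (hb : ∀ r, |ρ r| ≤ 1)
    (hr : ∀ t ∈ Ico T0 T1, ContinuousWithinAt ρ (Ici t) t) {k kx kxx kw : ℝ → ℝ → ℝ → ℝ}
    (P : Pack T0 T1 C k kx kxx kw) :
    ContinuousOn (fun p : ℝ × ℝ => RR a T1 ρ k p.1 p.2) (Icc T0 T1 ×ˢ univ) ∧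
    (∀ t ∈ Ico T0 T1, ∀ x, HasDerivWithinAt (fun τ => RR a T1 ρ k τ x)
      (-(ρ t * k t 0 x) - a * RR a T1 ρ kw t x) (Ici t) t) ∧
    (∀ t ∈ Icc T0 T1, ∀ x, HasDerivAt (RR a T1 ρ k t) (RR a T1 ρ kx t x) x ∧
      HasDerivAt (RR a T1 ρ kx t) (RR a T1 ρ kxx t x) x) ∧
    (∀ t ∈ Icc T0 T1, ∀ x, |RR a T1 ρ k t x| ≤ C) := by
  have D : ∀ t ∈ Icc T0 T1, ∀ x, HasDerivAt (RR a T1 ρ k t) (RR a T1 ρ kx t x) x ∧
      HasDerivAt (RR a T1 ρ kx t) (RR a T1 ρ kxx t x) x := by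
    intro t ht x
    exact ⟨RR_dx ha ht.1 ht.2 hm hb P.c0 P.cx (fun r hr w hw x => (P.dx r hr w hw x).1)
      (fun r hr w hw x => (P.b r hr w hw x).2.1) x,
      RR_dx ha ht.1 ht.2 hm hb P.cx P.cxx (fun r hr w hw x => (P.dx r hr w hw x).2)
      (fun r hr w hw x => (P.b r hr w hw x).2.2.1) x⟩
  refine ⟨?_, ?_, D, ?_⟩
  · refine cont_of_lip (M := C + C * a) (N := C) (by positivity) hC0 ?_ ?_
    · intro t ht t' ht' x
      rcases le_total t t' with h | h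
      · rw [abs_of_nonneg (sub_nonneg.2 h)]
        exact RR_lip_t_aux ha h1 hC0 hm hb P ht ht' h x
      · rw [abs_sub_comm, abs_sub_comm t' t, abs_of_nonneg (sub_nonneg.2 h)]
        exact RR_lip_t_aux ha h1 hC0 hm hb P ht' ht h x
    · intro t ht x y
      exact (convex_univ : Convex ℝ (univ : Set ℝ)).norm_image_sub_le_of_norm_hasDerivWithin_le
        (f := RR a T1 ρ k t) (f' := RR a T1 ρ kx t) (C := C)
        (fun u _ => (D t ht u).1.hasDerivWithinAt)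
        (fun u _ => RR_bd ha ht.1 ht.2 h1 hb (fun r hr w hw x => (P.b r hr w hw x).2.1) hC0 u)
        (mem_univ x) (mem_univ y)
  · intro t ht x
    have hsub : Icc t T1 ×ˢ Ici (0 : ℝ) ⊆ Icc T0 T1 ×ˢ Ici 0 :=
      prod_mono (Icc_subset_Icc ht.1 le_rfl) le_rfl
    have key := hLEIB a t T1 1 ρ (fun r w => k r w x) (fun r w => kw r w x) ha ht.2 hm
      (fun r _ => hb r) (hr t ht)
      (fun r hr w hw => P.dw r ⟨ht.1.trans hr.1, hr.2⟩ w hw x)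
      ((P.c0 x).mono hsub) ((P.cw x).mono hsub)
    exact key
  · intro t ht x
    exact RR_bd ha ht.1 ht.2 h1 hb (fun r hr w hw x => (P.b r hr w hw x).1) hC0 x

/-- `ζ` extended by constants -/
noncomputable def zt (ζ : ℝ → ℝ) (r : ℝ) : ℝ := ζ (projIcc 0 1 zero_le_one r : ℝ)

lemma zt_eq {ζ : ℝ → ℝ} {r : ℝ} (hr : r ∈ Icc (0 : ℝ) 1) : zt ζ r = ζ r := by
  unfold zt
  rw [projIcc_of_mem zero_le_one hr]

lemma zt_meas {ζ : ℝ → ℝ} (hζ : IsCdf ζ) : Measurable (zt ζ) := by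
  refine Monotone.measurable fun r s h => ?_
  exact hζ.1 (projIcc 0 1 zero_le_one r).2 (projIcc 0 1 zero_le_one s).2
    (monotone_projIcc zero_le_one h)

lemma zt_mem {ζ : ℝ → ℝ} (hζ : IsCdf ζ) (r : ℝ) : 0 ≤ zt ζ r ∧ zt ζ r ≤ 1 :=
  hζ.2.1 _ (projIcc 0 1 zero_le_one r).2

lemma zt_rc {ζ : ℝ → ℝ} (hζ : IsCdf ζ) {t : ℝ} (ht : t ∈ Ico (0 : ℝ) 1) :
    ContinuousWithinAt (zt ζ) (Ici t) t := by
  refine (hζ.2.2.2 t ht).congr_of_eventuallyEq ?_ (zt_eq ⟨ht.1, ht.2.le⟩)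
  filter_upwards [Icc_mem_nhdsGE ht.2] with r hr
  exact zt_eq ⟨ht.1.trans hr.1, hr.2⟩

end Pool.TH879.AT
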